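import Pool.Agent.KS6_68.El.Family

/-! Fermi varieties of separable real periodic potentials in the plane. -/

set_option autoImplicit false

namespace Pool.Agent.Results.MP_1d3a05_mp.SeparableClassification

open Complex Pool.Agent.KS6_68.FV

/-- Classification of the reducible Fermi varieties of separable real potentials
`V (x, y) = v1 x + v2 y`, with `v1`, `v2` continuous of period `1`.

* Hill's equation with potential `v` has exactly one discriminant.
* The Fermi variety of `V` at the complex energy `lam` is reducible modulo periodicity if and only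
  if the band edges of `v1` are the mirror images `lam - E` of the band edges `E` of `v2`;
  equivalently its image in `(ℂ*)²` is reducible.  This can happen for at most one energy `lam`, the
  energy is then real, and `v1`, `v2` have only finitely many band edges.
* It does happen for non-constant potentials: for all positive integers `N`, `M` the real-analytic
  potential `2 ℘ (x + i / (2 M)) - 2 ℘ (i y + 1 / (2 N))`, where `℘` is the Weierstrass function of
  the lattice with basis `1 / N`, `i / M`, has a reducible Fermi variety at energy `lam` if and only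
  if `lam = 0`. -/
theorem result :
    (∀ v : ℝ → ℝ, Continuous v → (∀ x, v (x + 1) = v x) → ∃! D : ℂ → ℂ, IsDiscriminant v D) ∧
    (∀ v1 v2 : ℝ → ℝ, Continuous v1 → Continuous v2 → (∀ x, v1 (x + 1) = v1 x) →
      (∀ y, v2 (y + 1) = v2 y) → ∀ D1 D2 : ℂ → ℂ, IsDiscriminant v1 D1 → IsDiscriminant v2 D2 →
      ∀ lam : ℂ,
        (ReducibleInvariant (fermi (fun x y => v1 x + v2 y) lam) ↔
          edges D1 = {E | lam - E ∈ edges D2}) ∧
        (ReducibleInvariant (fermi (fun x y => v1 x + v2 y) lam) ↔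
          Reducible torusC (quasi '' fermi (fun x y => v1 x + v2 y) lam)) ∧
        (ReducibleInvariant (fermi (fun x y => v1 x + v2 y) lam) →
          lam.im = 0 ∧ (edges D1).Finite ∧ (edges D2).Finite ∧ (edges D1).Nonempty ∧
          ∀ mu : ℂ, ReducibleInvariant (fermi (fun x y => v1 x + v2 y) mu) → mu = lam)) ∧
    (∀ N M : ℕ, 0 < N → 0 < M → ∃ L : PeriodPair, L.ω₁ = 1 / N ∧ L.ω₂ = I / M ∧
      ∃ v1 v2 : ℝ → ℝ, (∀ x : ℝ, (v1 x : ℂ) = 2 * L.weierstrassP (x + I / (2 * M))) ∧
        (∀ y : ℝ, (v2 y : ℂ) = -2 * L.weierstrassP (I * y + 1 / (2 * N))) ∧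
        AnalyticOnNhd ℝ v1 Set.univ ∧ AnalyticOnNhd ℝ v2 Set.univ ∧
        (∀ x, v1 (x + 1) = v1 x) ∧ (∀ y, v2 (y + 1) = v2 y) ∧
        (∃ x x', v1 x ≠ v1 x') ∧ (∃ y y', v2 y ≠ v2 y') ∧
        ∀ lam : ℂ, ReducibleInvariant (fermi (fun x y => v1 x + v2 y) lam) ↔ lam = 0) := by
  have cls : ∀ v1 v2 : ℝ → ℝ, Continuous v1 → Continuous v2 → (∀ x, v1 (x + 1) = v1 x) →
      (∀ y, v2 (y + 1) = v2 y) → ∀ D1 D2 : ℂ → ℂ, IsDiscriminant v1 D1 → IsDiscriminant v2 D2 →
      ∀ lam : ℂ,
        (ReducibleInvariant (fermi (fun x y => v1 x + v2 y) lam) ↔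
          edges D1 = {E | lam - E ∈ edges D2}) ∧
        (ReducibleInvariant (fermi (fun x y => v1 x + v2 y) lam) ↔
          Reducible torusC (quasi '' fermi (fun x y => v1 x + v2 y) lam)) ∧
        (ReducibleInvariant (fermi (fun x y => v1 x + v2 y) lam) →
          lam.im = 0 ∧ (edges D1).Finite ∧ (edges D2).Finite ∧ (edges D1).Nonempty ∧
          ∀ mu : ℂ, ReducibleInvariant (fermi (fun x y => v1 x + v2 y) mu) → mu = lam) := by
    intro v1 v2 hv1 hv2 hp1 hp2 D1 D2 hD1 hD2 lam
    have key : ∀ lam : ℂ, ReducibleInvariant (fermi (fun x y => v1 x + v2 y) lam) ↔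
        edges D1 = {E | lam - E ∈ edges D2} := fun lam =>
      (red_inv_iff hv1 hv2 hp1 hp2 hD1 hD2 lam).trans (red_torus_iff hv1 hv2 hp1 hp2 hD1 hD2 lam)
    refine ⟨key lam, red_inv_iff hv1 hv2 hp1 hp2 hD1 hD2 lam, fun h => ?_⟩
    obtain ⟨h1, h2, h3, h4, h5⟩ := mirror_cons hv1 hv2 hp1 hp2 hD1 hD2 ((key lam).1 h)
    exact ⟨h1, h2, h3, h4, fun mu hmu => h5 mu ((key mu).1 hmu)⟩
  refine ⟨fun v hv hp => exists_disc hv hp, cls, fun N M hN hM => ?_⟩
  obtain ⟨L, h1, h2, v1, v2, e1, e2, a1, a2, p1, p2, n1, n2, -, hr⟩ :=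
    Pool.Agent.KS6_68.El.family N M hN hM
  refine ⟨L, h1, h2, v1, v2, e1, e2, a1, a2, p1, p2, n1, n2, fun lam => ⟨fun h => ?_, ?_⟩⟩
  · have c1 : Continuous v1 := continuous_iff_continuousAt.2 fun x => (a1 x trivial).continuousAt
    have c2 : Continuous v2 := continuous_iff_continuousAt.2 fun x => (a2 x trivial).continuousAt
    obtain ⟨D1, hD1, -⟩ := exists_disc c1 p1
    obtain ⟨D2, hD2, -⟩ := exists_disc c2 p2
    exact ((cls v1 v2 c1 c2 p1 p2 D1 D2 hD1 hD2 0).2.2 hr).2.2.2.2 lam h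
  · rintro rfl
    exact hr

end Pool.Agent.Results.MP_1d3a05_mp.SeparableClassification
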